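import Pool.Agent.Lib.MP_e1f7e2_al.FA.Iface

set_option autoImplicit false

/-!
Project FA (MP_e1f7e2_al), module ORB: good bases.
-/

namespace Pool.Agent.Lib.MP_e1f7e2_al.FA.H54

open Pool.Agent.Lib.MP_e1f7e2_al.FA

section

variable {K : Type*} [Field K] {w : Fin 3 → ℝ}

theorem dg_addc (d : DegFacts K w) (x : A K 3) (c : K) (hx : 0 < dg w x) :
    dg w (x + c • 1) = dg w x :=
  d.add_left x (c • 1) (by rw [d.const]; exact hx)

theorem dg_addc' (d : DegFacts K w) (x : A K 3) (c : K) : dg w (x + c • 1) = dg w x := by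
  by_cases h : 0 < dg w x
  · exact dg_addc d x c h
  · have h0 : dg w x = 0 := le_antisymm (not_lt.1 h) (d.nn x)
    obtain ⟨e, rfl⟩ := d.of_zero x h0
    rw [← add_smul, d.const, d.const]

theorem or2ne (d : DegFacts K w) (f g : A K 3) (hf : 0 < dg w f) (hg : 0 < dg w g)
    (hne : dg w f ≠ dg w g) : Or2 w f g := by
  intro a b c
  rw [dg_addc' d]
  by_cases ha : a = 0
  · refine ⟨fun h => absurd ha h, fun hb => ?_⟩
    rw [ha, zero_smul, zero_add, d.smul b g hb]
  · by_cases hb : b = 0
    · refine ⟨fun _ => ?_, fun h => absurd hb h⟩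
      rw [hb, zero_smul, add_zero, d.smul a f ha]
    · have h1 := d.smul a f ha
      have h2 := d.smul b g hb
      rcases lt_or_gt_of_ne hne with h | h
      · have h3 := d.add_right (a • f) (b • g) (by rw [h1, h2]; exact h)
        rw [h3, h2]
        exact ⟨fun _ => h.le, fun _ => le_refl _⟩
      · have h3 := d.add_left (a • f) (b • g) (by rw [h1, h2]; exact h)
        rw [h3, h1]
        exact ⟨fun _ => le_refl _, fun _ => h.le⟩

/-- commutator with a changed first element -/
theorem comm_change (f g : A K 3) (b c : K) :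
    (f + b • g + c • 1) * g - g * (f + b • g + c • 1) = f * g - g * f := by
  rw [add_mul, add_mul, mul_add, mul_add, smul_mul_assoc, smul_mul_assoc, mul_smul_comm,
    mul_smul_comm, one_mul, mul_one]
  abel

theorem or2nc (d : DegFacts K w) (e : EFacts K w) (f g : A K 3) (hf : 0 < dg w f)
    (hg : 0 < dg w g) (hnc : ¬ Com w f g) : Or2 w f g := by
  by_cases hne : dg w f = dg w g
  · intro a b c
    by_cases ha : a = 0
    · refine ⟨fun h => absurd ha h, fun hb => ?_⟩
      rw [dg_addc' d, ha, zero_smul, zero_add, d.smul b g hb]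
    · have key : dg w f ≤ dg w (a • f + b • g + c • 1) := by
        by_contra hlt
        rw [not_le] at hlt
        apply hnc
        have h1 : a • f + b • g + c • (1 : A K 3) =
            a • (f + (a⁻¹ * b) • g + (a⁻¹ * c) • 1) := by
          rw [smul_add, smul_add, smul_smul, smul_smul, mul_inv_cancel_left₀ ha,
            mul_inv_cancel_left₀ ha]
        rw [h1, d.smul a _ ha] at hlt
        have h2 := e.le (f + (a⁻¹ * b) • g + (a⁻¹ * c) • 1) g
        rw [E, comm_change] at h2
        change E w f g < _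
        rw [E]
        linarith
      exact ⟨fun _ => key, fun _ => hne ▸ key⟩
  · exact or2ne d f g hf hg hne

theorem or2symm (f g : A K 3) (h : Or2 w f g) : Or2 w g f := by
  intro a b c
  have := h b a c
  rw [add_comm (b • f) (a • g)] at this
  exact ⟨this.2, this.1⟩

/-- the degree of an element of a plane with a good basis -/
theorem dgval (d : DegFacts K w) (f g : A K 3) (h : Or2 w f g) (a b c : K)
    (hx : 0 < dg w (a • f + b • g + c • 1)) :
    dg w (a • f + b • g + c • 1) = dg w f ∨ dg w (a • f + b • g + c • 1) = dg w g := by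
  have h0 := h a b c
  rw [dg_addc' d] at hx h0 ⊢
  by_cases ha : a = 0
  · by_cases hb : b = 0
    · rw [ha, hb, zero_smul, zero_smul, zero_add, d.zero] at hx
      exact absurd hx (lt_irrefl _)
    · right
      rw [ha, zero_smul, zero_add, d.smul b g hb]
  · by_cases hb : b = 0
    · left
      rw [hb, zero_smul, add_zero, d.smul a f ha]
    · have h1 := d.add_le (a • f) (b • g)
      rw [d.smul a f ha, d.smul b g hb] at h1
      have h2 := h0.1 ha
      have h3 := h0.2 hb
      rcases le_total (dg w f) (dg w g) with h4 | h4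
      · right
        rw [max_eq_right h4] at h1
        exact le_antisymm h1 h3
      · left
        rw [max_eq_left h4] at h1
        exact le_antisymm h1 h2

/-- commutator of two elements of a plane -/
theorem comm_lin (f g : A K 3) (a b c a' b' c' : K) :
    (a • f + b • g + c • 1) * (a' • f + b' • g + c' • 1) -
      (a' • f + b' • g + c' • 1) * (a • f + b • g + c • 1) =
      (a * b' - a' * b) • (f * g - g * f) := by
  simp only [add_mul, mul_add, smul_mul_assoc, mul_smul_comm, one_mul, mul_one]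
  module

theorem nc_lin (s : SpanFacts K) (f g f' g' : A K 3) (hnc : f * g ≠ g * f)
    (hl : lin f g = lin f' g') :
    f' * g' ≠ g' * f' ∧ ∃ a b c a' b' c' : K, f' = a • f + b • g + c • 1 ∧
      g' = a' • f + b' • g + c' • 1 ∧ a * b' - a' * b ≠ 0 := by
  have hf : f ∈ lin f' g' := by
    rw [← hl, s.linmem]
    exact ⟨1, 0, 0, by simp⟩
  have hg : g ∈ lin f' g' := by
    rw [← hl, s.linmem]
    exact ⟨0, 1, 0, by simp⟩
  have hf' : f' ∈ lin f g := by
    rw [hl, s.linmem]
    exact ⟨1, 0, 0, by simp⟩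
  have hg' : g' ∈ lin f g := by
    rw [hl, s.linmem]
    exact ⟨0, 1, 0, by simp⟩
  obtain ⟨x, y, z, h1⟩ := (s.linmem f' g' f).1 hf
  obtain ⟨x', y', z', h2⟩ := (s.linmem f' g' g).1 hg
  obtain ⟨a, b, c, h3⟩ := (s.linmem f g f').1 hf'
  obtain ⟨a', b', c', h4⟩ := (s.linmem f g g').1 hg'
  have hn : f' * g' ≠ g' * f' := by
    intro h
    apply hnc
    have h5 := comm_lin f' g' x y z x' y' z'
    rw [← h1, ← h2, h, sub_self, smul_zero] at h5
    exact sub_eq_zero.1 h5
  refine ⟨hn, a, b, c, a', b', c', h3, h4, ?_⟩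
  intro h
  apply hn
  have h5 := comm_lin f g a b c a' b' c'
  rw [← h3, ← h4, h, zero_smul] at h5
  exact sub_eq_zero.1 h5

theorem elin (d : DegFacts K w) (s : SpanFacts K) (f g f' g' : A K 3) (hnc : f * g ≠ g * f)
    (hl : lin f g = lin f' g') : E w f' g' = E w f g := by
  obtain ⟨_, a, b, c, a', b', c', h3, h4, h5⟩ := nc_lin s f g f' g' hnc hl
  rw [E, E, h3, h4, comm_lin, d.smul _ _ h5]

theorem or2deg (d : DegFacts K w) (s : SpanFacts K) (e : EFacts K w) (f g f' g' : A K 3)
    (hnc : f * g ≠ g * f) (ho : Or2 w f g) (ho' : Or2 w f' g') (hl : lin f g = lin f' g') :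
    (dg w f' = dg w f ∧ dg w g' = dg w g) ∨ (dg w f' = dg w g ∧ dg w g' = dg w f) := by
  obtain ⟨hn, a, b, c, a', b', c', h3, h4, _⟩ := nc_lin s f g f' g' hnc hl
  obtain ⟨_, x, y, z, x', y', z', h1, h2, _⟩ := nc_lin s f' g' f g hn hl.symm
  obtain ⟨-, p1, p2⟩ := e.pos f g hnc
  obtain ⟨-, p3, p4⟩ := e.pos f' g' hn
  have q1 := dgval d f g ho a b c (by rw [← h3]; exact p3)
  have q2 := dgval d f g ho a' b' c' (by rw [← h4]; exact p4)
  have q3 := dgval d f' g' ho' x y z (by rw [← h1]; exact p1)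
  have q4 := dgval d f' g' ho' x' y' z' (by rw [← h2]; exact p2)
  rw [← h3] at q1
  rw [← h4] at q2
  rw [← h1] at q3
  rw [← h2] at q4
  rcases q1 with q1 | q1 <;> rcases q2 with q2 | q2 <;> rcases q3 with q3 | q3 <;>
    rcases q4 with q4 | q4 <;> first
      | exact Or.inl ⟨by linarith, by linarith⟩
      | exact Or.inr ⟨by linarith, by linarith⟩

theorem nd_smul (d : DegFacts K w) (e : EFacts K w) (t : WoneFacts K w) (f g : A K 3) (a : K)
    (ha : a ≠ 0) (h : ND w f g) : ND w (a • f) g where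
  pf := by rw [d.smul a f ha]; exact h.pf
  pg := h.pg
  com := by
    have := h.com
    rw [Com] at this ⊢
    rw [e.smul a f g ha, d.smul a f ha]
    exact this
  nfg := by
    rw [t.dvsmul f g a ha h.pf]
    exact h.nfg
  ngf := by
    rintro ⟨c, k, hk, hlt⟩
    apply h.ngf
    refine ⟨c * a ^ k, k, hk, ?_⟩
    rw [smul_pow, smul_smul] at hlt
    exact hlt

theorem nd_change (d : DegFacts K w) (e : EFacts K w) (t : WoneFacts K w) (f g : A K 3)
    (a b c : K) (ha : a ≠ 0) (hb : b = 0 ∨ dg w g < dg w f) (h : ND w f g) :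
    ND w (a • f + b • g + c • 1) g := by
  have h1 : a • f + b • g + c • (1 : A K 3) = a • (f + ((a⁻¹ * b) • g + (a⁻¹ * c) • 1)) := by
    rw [smul_add, smul_add, smul_smul, smul_smul, mul_inv_cancel_left₀ ha,
      mul_inv_cancel_left₀ ha, add_assoc]
  rw [h1]
  apply nd_smul d e t _ _ _ ha
  refine t.ndtop f _ g ?_ h
  rw [show f - (f + ((a⁻¹ * b) • g + (a⁻¹ * c) • (1 : A K 3))) =
    -((a⁻¹ * b) • g + (a⁻¹ * c) • 1) by abel, d.neg, dg_addc' d]
  rcases hb with hb | hb
  · rw [hb, mul_zero, zero_smul, d.zero]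
    exact h.pf
  · exact (d.smul_le _ _).trans_lt hb

/-- the case `|g| < |f|`, `|g'| < |f'|` -/
theorem ndlin_aux (d : DegFacts K w) (s : SpanFacts K) (e : EFacts K w) (t : WoneFacts K w)
    (f g f' g' : A K 3) (hnc : f * g ≠ g * f) (h : ND w f g)
    (hl : lin f g = lin f' g') (hlt : dg w g < dg w f) (h1 : dg w f' = dg w f)
    (h2 : dg w g' = dg w g) : ND w f' g' := by
  have ho : Or2 w f g := or2ne d f g h.pf h.pg hlt.ne'
  obtain ⟨hn, a, b, c, a', b', c', h3, h4, h5⟩ := nc_lin s f g f' g' hnc hl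
  have ha' : a' = 0 := by
    by_contra hne
    have := (ho a' b' c').1 hne
    rw [← h4, h2] at this
    exact absurd this (not_le.2 hlt)
  rw [ha', zero_mul, sub_zero] at h5
  have ha : a ≠ 0 := left_ne_zero_of_mul h5
  have hb' : b' ≠ 0 := right_ne_zero_of_mul h5
  have h6 : ND w f' g := by
    rw [h3]
    exact nd_change d e t f g a b c ha (Or.inr hlt) h
  have h7 := nd_change d e t g f' b' 0 c' hb' (Or.inl rfl) (t.ndsymm _ _ h6)
  have h8 : b' • g + (0 : K) • f' + c' • (1 : A K 3) = g' := by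
    rw [h4, ha', zero_smul, zero_smul, zero_add, add_zero]
  rw [h8] at h7
  exact t.ndsymm _ _ h7

theorem ndlin (d : DegFacts K w) (s : SpanFacts K) (e : EFacts K w) (t : WoneFacts K w)
    (f g f' g' : A K 3) (hnc : f * g ≠ g * f) (h : ND w f g) (ho' : Or2 w f' g')
    (hl : lin f g = lin f' g') : ND w f' g' := by
  have hne := t.ndne f g h
  have ho : Or2 w f g := or2ne d f g h.pf h.pg hne
  have hl1 : lin g f = lin f' g' := by rw [← s.lcomm f g, hl]
  have hl2 : lin f g = lin g' f' := by rw [hl, s.lcomm f' g']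
  have hl3 : lin g f = lin g' f' := by rw [← s.lcomm f g, hl2]
  have hs := t.ndsymm f g h
  rcases or2deg d s e f g f' g' hnc ho ho' hl with ⟨h1, h2⟩ | ⟨h1, h2⟩
  · rcases lt_or_gt_of_ne hne with hlt | hlt
    · exact t.ndsymm _ _ (ndlin_aux d s e t g f g' f' hnc.symm hs hl3 hlt h2 h1)
    · exact ndlin_aux d s e t f g f' g' hnc h hl hlt h1 h2
  · rcases lt_or_gt_of_ne hne with hlt | hlt
    · exact ndlin_aux d s e t g f f' g' hnc.symm hs hl1 hlt h1 h2
    · exact t.ndsymm _ _ (ndlin_aux d s e t f g g' f' hnc h hl2 hlt h2 h1)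

end

theorem orb (K : Type*) [Field K] (w : Fin 3 → ℝ) (_hw : Gen w) (d : DegFacts K w)
    (s : SpanFacts K) (cw : ComwFacts K w) (e : EFacts K w) (t : WoneFacts K w) :
    OrFacts K w where
  exl := by
    intro l m hnc
    obtain ⟨_, ⟨a, rfl⟩, hmin⟩ := d.minim {x | ∃ a : K, x = m + a • l} ⟨m + (0 : K) • l, 0, rfl⟩
    have hlin : lin l (m + a • l) = lin l m := by
      have h1 := s.lel m l 1 a 0 one_ne_zero
      rw [one_smul, zero_smul, add_zero] at h1
      rw [s.lcomm, h1, s.lcomm]
    refine ⟨a, ?_, hlin⟩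
    obtain ⟨-, pl, -⟩ := e.pos l m hnc
    obtain ⟨hn, -⟩ := nc_lin s l m l (m + a • l) hnc hlin.symm
    obtain ⟨-, -, pg⟩ := e.pos _ _ hn
    by_cases hne : dg w l = dg w (m + a • l)
    · intro x y z
      rw [dg_addc' d]
      by_cases hy : y = 0
      · refine ⟨fun hx => ?_, fun h => absurd hy h⟩
        rw [hy, zero_smul, add_zero, d.smul x l hx]
      · have key : dg w (m + a • l) ≤ dg w (x • l + y • (m + a • l)) := by
          have h1 : x • l + y • (m + a • l) = y • (m + (a + y⁻¹ * x) • l) := by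
            rw [smul_add, smul_add, smul_smul, smul_smul, mul_add, mul_inv_cancel_left₀ hy,
              add_smul]
            abel
          rw [h1, d.smul y _ hy]
          exact hmin _ ⟨_, rfl⟩
        exact ⟨fun _ => hne ▸ key, fun _ => key⟩
    · exact or2ne d _ _ pl pg hne
  mn3 := by
    intro f g h hfr ho hm a b c dd
    by_cases hc : c = 0
    · have h1 := ho a b dd
      rw [hc, zero_smul, add_zero]
      exact ⟨h1.1, h1.2, fun hne => absurd rfl hne⟩
    · have h0 : a • f + b • g + c • h + dd • (1 : A K 3) =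
          (a • f + b • g + dd • 1) + c • h := by abel
      have hx : dg w h ≤ dg w (a • f + b • g + c • h + dd • 1) := by
        have h1 : a • f + b • g + c • h + dd • (1 : A K 3) =
            c • (h + ((c⁻¹ * a) • f + (c⁻¹ * b) • g + (c⁻¹ * dd) • 1)) := by
          rw [smul_add, smul_add, smul_add, smul_smul, smul_smul, smul_smul,
            mul_inv_cancel_left₀ hc, mul_inv_cancel_left₀ hc, mul_inv_cancel_left₀ hc]
          abel
        rw [h1, d.smul c _ hc]
        exact hm _ ((s.linmem _ _ _).2 ⟨_, _, _, rfl⟩)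
      have hy : dg w (a • f + b • g + dd • 1) ≤ dg w (a • f + b • g + c • h + dd • 1) := by
        rcases lt_or_ge (dg w h) (dg w (a • f + b • g + dd • 1)) with h2 | h2
        · rw [h0, d.add_left (a • f + b • g + dd • 1) (c • h) (by rw [d.smul c h hc]; exact h2)]
        · exact h2.trans hx
      have h1 := ho a b dd
      exact ⟨fun ha => (h1.1 ha).trans hy, fun hb => (h1.2 hb).trans hy, fun _ => hx⟩
  mnex := by
    intro f g h
    obtain ⟨_, ⟨q, hq, rfl⟩, hmin⟩ := d.minim {x | ∃ q ∈ B f g, x = h + q}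
      ⟨h + 0, 0, (B f g).zero_mem, rfl⟩
    refine ⟨q, hq, fun q' hq' => ?_⟩
    rw [add_assoc]
    exact hmin _ ⟨q + q', (B f g).add_mem hq hq', rfl⟩
  or2ne := or2ne d
  or2nc := or2nc d e
  or2com := by
    intro f g hf ho hc heq
    obtain ⟨c, hc0, hlt⟩ := cw.prop f g hf heq hc
    have h1 := (ho 1 (-c) 0).1 one_ne_zero
    rw [one_smul, zero_smul, add_zero, neg_smul, ← sub_eq_add_neg] at h1
    exact absurd hlt (not_lt.2 h1)
  or2symm := or2symm
  or3p12 := by
    intro f g h ho a b c dd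
    have h1 := ho b a c dd
    rw [add_comm (b • f) (a • g)] at h1
    exact ⟨h1.2.1, h1.1, h1.2.2⟩
  or3p23 := by
    intro f g h ho a b c dd
    have h1 := ho a c b dd
    rw [add_right_comm (a • f) (c • g) (b • h)] at h1
    exact ⟨h1.1, h1.2.2, h1.2.1⟩
  or32 := by
    intro f g h ho a b c
    have h1 := ho a b 0 c
    rw [zero_smul, add_zero] at h1
    exact ⟨h1.1, h1.2.1⟩
  or2deg := or2deg d s e
  elin := elin d s
  ndlin := ndlin d s e t
  gdlin := by
    intro f g f' g' hnc hnd hgd ho' hl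
    have ho : Or2 w f g := or2ne d f g hnd.pf hnd.pg (t.ndne f g hnd)
    have hE := elin d s f g f' g' hnc hl
    obtain ⟨g1, g2⟩ := hgd
    rw [Df] at g1 g2
    rcases or2deg d s e f g f' g' hnc ho ho' hl with ⟨h1, h2⟩ | ⟨h1, h2⟩
    · constructor
      · rw [Df, hE, h1, h2]
        exact g1
      · rw [Df, hE, h1, h2]
        exact g2
    · constructor
      · rw [Df, hE, h1, h2, add_comm (dg w g) (dg w f), min_comm]
        exact g1
      · rw [Df, hE, h1, h2, add_comm (dg w g) (dg w f), max_comm]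
        exact g2
  ndor := fun f g h => or2ne d f g h.pf h.pg (t.ndne f g h)

end Pool.Agent.Lib.MP_e1f7e2_al.FA.H54
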