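import Pool.Agent.Lib.MP_e1f7e2_al.FA.Iface

set_option autoImplicit false

/-!
Project FA (MP_e1f7e2_al), module SIXB: configuration I.4.
-/

namespace Pool.Agent.Lib.MP_e1f7e2_al.FA.H54

open Pool.Agent.Lib.MP_e1f7e2_al.FA

theorem com_symm {K : Type*} [Field K] {w : Fin 3 → ℝ} (F : Facts K w) {f g : A K 3}
    (h : Com w f g) : Com w g f := by
  rw [Com] at h ⊢
  rw [F.e.comm g f, add_comm]
  exact h

theorem sixb (K : Type*) [Field K] (w : Fin 3 → ℝ) (_hw : Gen w) (F : Facts K w)
    (hA6 : SixaStatement K w) : SixbStatement K w := by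
  intro ν l m f fs m' h6 hci hml hfl hlf
  obtain ⟨⟨fr, or3, vdf, hq, dlt, mn, red⟩, hq', dle⟩ := hci
  by_cases h3 : ∃ (k : K) (R : Polynomial K), m - m' = k • f + Polynomial.aeval l R
  · exact hA6 ν l m f fs m' h6 ⟨⟨fr, or3, vdf, hq, dlt, mn, red⟩, hq', dle⟩ (Or.inr (Or.inr h3))
  -- positivity
  have pl : 0 < dg w l := F.f.pos l m f fr
  have pm : 0 < dg w m := F.f.pos m l f (F.f.p12 _ _ _ fr)
  have frlf : Fr l f m := F.f.p23 _ _ _ fr
  have pf : 0 < dg w f := F.f.pos f l m (F.f.p12 _ _ _ frlf)
  have hlm : l * m ≠ m * l := F.f.nc l m f fr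
  -- the degree of Q
  have hQ : dg w f + min (dg w l) (dg w f) ≤ dg w m := by
    by_contra hlt
    rw [not_le] at hlt
    apply h3
    refine F.t.fr2 l f (m - m') pl pf hlf hq' ?_
    exact (F.d.sub_le m m').trans_lt (by rw [max_eq_left dle]; exact hlt)
  have hfm : dg w f < dg w m := by
    have : 0 < min (dg w l) (dg w f) := lt_min pl pf
    linarith
  -- the degree of P
  have hP : dg w (f - fs) = dg w f := F.d.sub_left f fs dlt
  -- P is not a polynomial in l
  have hPl : ∀ R : Polynomial K, f - fs ≠ Polynomial.aeval l R := by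
    intro R hR
    apply hlf
    apply com_symm F
    have h1 : f = fs + Polynomial.aeval l R := by rw [← hR]; abel
    have h2 := F.e.addp fs l R
    rw [← h1] at h2
    have h4 := F.e.le fs l
    rw [Com, h2]
    linarith
  -- the smaller vertex
  have hneg : fs - f ∈ B l m := by
    have := (B l m).neg_mem hq
    rwa [neg_sub] at this
  obtain ⟨frs, _⟩ := F.f.adjm l m f fs fr hneg
  have hvs : vd w (sp l m fs) < ν := by
    rw [← vdf]
    exact F.v.strict l m f fs fr or3 hneg dlt
  by_cases hc : Com w l m
  · by_cases hdlm : Dv w l m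
    · -- `l` is divisible by `m`
      have or2 : Or2 w l m := F.o.or32 _ _ _ or3
      obtain ⟨-, -, c, k, hc0, hk, hdeg, hlt⟩ := F.e.dv' l m pl hdlm
      have hk2 : 2 ≤ k := by
        by_contra hk3
        have hk1 : k = 1 := by omega
        rw [hk1, Nat.cast_one, one_mul] at hdeg
        exact F.o.or2com l m pl or2 hc hdeg
      have hml' : dg w m < dg w l := by
        rw [hdeg]
        have : (2 : ℝ) ≤ k := by exact_mod_cast hk2
        nlinarith
      -- Q is a polynomial in f
      obtain ⟨R, hR⟩ : ∃ R : Polynomial K, m - m' = Polynomial.aeval f R := by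
        refine F.t.fr1 f l (m - m') pf pl (fun h => hlf (com_symm F h)) ?_ ?_
        · rw [F.s.bcomm]
          exact hq'
        · exact (F.d.sub_le m m').trans_lt (by rw [max_eq_left dle]; exact hml')
      have hvdf : dg w l + dg w m + dg w f = ν := by
        rw [← vdf]
        exact (F.v.eq l m f fr or3).symm
      set l1 : A K 3 := l - c • m ^ k with hl1
      have hmk : ∀ x y : A K 3, m ∈ B x y → c • m ^ k ∈ B x y := fun x y hm =>
        (B x y).smul_mem ((B x y).pow_mem hm k) c
      -- <l1, m, fs>
      have fr1 : Fr m fs l := F.f.p23 _ _ _ (F.f.p12 _ _ _ frs)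
      have e1 : sp m fs l = sp l m fs := by
        rw [F.s.scomm' m fs l, F.s.scomm m l fs]
      obtain ⟨fr2, adj2⟩ := F.f.adjm m fs l l1 fr1 (by
        have : l1 - l = -(c • m ^ k) := by rw [hl1]; abel
        rw [this]
        exact (B m fs).neg_mem (hmk _ _ (F.s.bf m fs)))
      have red2 : Red w (sp m fs l1) := by
        refine h6.ha _ _ ?_ ?_ adj2
        · rw [e1]; exact hvs
        · rw [e1]; exact red
      have hv2 : vd w (sp m fs l1) < ν := by
        have := F.v.le m fs l1 fr2
        linarith
      -- <l1, m, f>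
      have fr3 : Fr l1 m fs := F.f.p12 _ _ _ (F.f.p23 _ _ _ fr2)
      have e2 : sp m fs l1 = sp l1 m fs := by
        rw [F.s.scomm' m fs l1, F.s.scomm m l1 fs]
      have hB : B l1 m = B l m := by
        have h1 := F.s.bel l m 1 (-(Polynomial.C c * Polynomial.X ^ k)) one_ne_zero
        have h2 : (1 : K) • l + Polynomial.aeval m (-(Polynomial.C c * Polynomial.X ^ k)) = l1 := by
          rw [one_smul, map_neg, map_mul, map_pow, Polynomial.aeval_C, Polynomial.aeval_X, hl1,
            ← Algebra.smul_def]
          abel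
        rw [h2] at h1
        exact h1
      obtain ⟨fr4, adj4⟩ := F.f.adjm l1 m fs f fr3 (by rw [hB]; exact hq)
      have red4 : Red w (sp l1 m f) := by
        refine h6.ha _ _ ?_ ?_ adj4
        · rw [← e2]; exact hv2
        · rw [← e2]; exact red2
      have hv4 : vd w (sp l1 m f) < ν := by
        have := F.v.le l1 m f fr4
        linarith
      -- <f, l1, m'>
      have fr5 : Fr l1 f m := F.f.p23 _ _ _ fr4
      obtain ⟨fr6, adj6⟩ := F.f.adjm l1 f m m' fr5 (by
        have : m' - m = -(Polynomial.aeval f R) := by rw [← hR]; abel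
        rw [this]
        exact (B l1 f).neg_mem (F.s.bpoly l1 f R))
      have e3 : sp l1 f m = sp l1 m f := F.s.scomm' l1 f m
      have red6 : Red w (sp l1 f m') := by
        refine h6.ha _ _ ?_ ?_ adj6
        · rw [e3]; exact hv4
        · rw [e3]; exact red4
      have hv6 : vd w (sp l1 f m') < ν := by
        have := F.v.le l1 f m' fr6
        linarith
      -- <f, m', l>
      have fr7 : Fr f m' l1 := F.f.p23 _ _ _ (F.f.p12 _ _ _ fr6)
      have e4 : sp f m' l1 = sp l1 f m' := by
        rw [F.s.scomm' f m' l1, F.s.scomm f l1 m']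
      obtain ⟨fr8, adj8⟩ := F.f.adjm f m' l1 l fr7 (by
        have h1 : l - l1 = c • m ^ k := by rw [hl1]; abel
        rw [h1]
        apply hmk
        have h2 : m = m' + Polynomial.aeval f R := by rw [← hR]; abel
        rw [h2]
        refine (B f m').add_mem (F.s.bg f m') ?_
        rw [F.s.bcomm]
        exact F.s.bpoly m' f R)
      have e5 : sp f m' l = sp l f m' := by
        rw [F.s.scomm' f m' l, F.s.scomm f l m']
      rw [← e5]
      refine h6.ha _ _ ?_ ?_ adj8
      · rw [e4]; exact hv6
      · rw [e4]; exact red6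
    · -- `(l, m)` is nondivisible
      exfalso
      have nd : ND w l m := ⟨pl, pm, hc, hdlm, hml⟩
      have gd : Gd w l m := h6.hb l m fs frs hvs red nd
      have hne := F.t.ndne l m nd
      rcases lt_or_gt_of_ne hne with hlt | hlt
      · -- `m` is big
        have nd' := F.t.ndsymm l m nd
        have gd' := F.t.gdsymm l m gd
        have hEs : E w m l = E w l m := F.e.comm m l
        obtain ⟨a, R, h1, -, h2⟩ := F.t.w1 m l (f - fs) hlm.symm nd' gd' hlt
          (by rw [F.s.bcomm]; exact hq) (by rw [hP]; exact hfm)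
        by_cases ha : a = 0
        · apply hPl R
          rw [h1, ha, zero_smul, zero_add]
        · obtain ⟨h4, -⟩ := h2 ha
          rw [hP] at h4
          obtain ⟨g1, g2⟩ := gd'
          rw [Df, min_eq_right hlt.le] at g1
          rw [Df, max_eq_left hlt.le] at g2
          have h5 : dg w l < dg w f := by linarith
          rw [min_eq_left h5.le] at hQ
          linarith
      · -- `l` is big
        obtain ⟨g1, g2⟩ := gd
        rw [Df, max_eq_left hlt.le] at g2
        obtain ⟨c, hcc⟩ := F.t.xe0 l m (f - fs) hlm hlt hdlm (by linarith) hq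
          (by rw [hP]; exact hfm)
        rw [hcc, F.d.const] at hP
        linarith
  · exfalso
    obtain ⟨R, hR⟩ := F.t.fr1 l m (f - fs) pl pm hc hq (by rw [hP]; exact hfm)
    exact hPl R hR

end Pool.Agent.Lib.MP_e1f7e2_al.FA.H54
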